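import Pool.Agent.H30.MRF.Defs
import Pool.Agent.H2.SPL.MaxRankFailsProof

/-!
The new statement follows from the earlier one.
-/

open MvPolynomial

namespace MRF

section

variable {K : Type*} [Field K] {r : ℕ}

theorem mem_linSys {v : Fin r → Fin 3 → K} {d : ℕ} {m : Fin r → ℕ} {F : MvPolynomial (Fin 3) K} :
    F ∈ linSys v d m ↔ F ∈ Pool.Agent.Results.MP_5bb273_ag.MaxRankFails.linSys v d m := by
  unfold Pool.Agent.Results.MP_5bb273_ag.MaxRankFails.linSys
  rw [Submodule.mem_inf, mem_homogeneousSubmodule, Submodule.mem_iInf]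
  exact Iff.rfl

theorem mapsTo (v : Fin r → Fin 3 → K) (d : ℕ) (m : Fin r → ℕ) (e : Fin r) :
    Set.MapsTo (rho v m e) (linSys v d m) (excForms (v e) (m e)) := fun F hF =>
  (Pool.Agent.Results.MP_5bb273_ag.MaxRankFails.rho v d m e ⟨F, mem_linSys.mp hF⟩).2

theorem injOn {v : Fin r → Fin 3 → K} {d : ℕ} {m : Fin r → ℕ} {e : Fin r}
    (h : Set.InjOn (rho v m e) (linSys v d m)) :
    Function.Injective (Pool.Agent.Results.MP_5bb273_ag.MaxRankFails.rho v d m e) := by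
  intro F G hFG
  apply Subtype.ext
  exact h (mem_linSys.mpr F.2) (mem_linSys.mpr G.2) (congrArg Subtype.val hFG)

theorem surjOn {v : Fin r → Fin 3 → K} {d : ℕ} {m : Fin r → ℕ} {e : Fin r}
    (h : Set.SurjOn (rho v m e) (linSys v d m) (excForms (v e) (m e))) :
    Function.Surjective (Pool.Agent.Results.MP_5bb273_ag.MaxRankFails.rho v d m e) := by
  intro G
  obtain ⟨F, hF, hG⟩ := h G.2
  exact ⟨⟨F, mem_linSys.mp hF⟩, Subtype.ext hG⟩

theorem hasFixed {v : Fin r → Fin 3 → K} {d : ℕ} {m : Fin r → ℕ} (h : HasFixedComponent v d m) :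
    Pool.Agent.Results.MP_5bb273_ag.MaxRankFails.HasFixedComponent v d m := by
  rcases h with ⟨G, hG, h⟩ | ⟨i, h⟩
  · exact Or.inl ⟨G, hG, fun F hF => h F (mem_linSys.mpr hF)⟩
  · exact Or.inr ⟨i, fun F hF => h F (mem_linSys.mpr hF)⟩

end

theorem mult_eq : mult = ![2, 2, 2, 2, 2, 2, 3] := by decide

/-- The main theorem. -/
theorem main (K : Type*) [Field K] [IsAlgClosed K] :
    ∃ Δ : MvPolynomial (Fin 7 × Fin 3) K, Δ ≠ 0 ∧
      ∀ v : Fin 7 → Fin 3 → K, eval (fun q => v q.1 q.2) Δ ≠ 0 →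
        ¬ HasFixedComponent v 6 mult ∧
        Set.MapsTo (rho v mult 6) (linSys v 6 mult) (excForms (v 6) 3) ∧
        ¬ Set.InjOn (rho v mult 6) (linSys v 6 mult) ∧
        ¬ Set.SurjOn (rho v mult 6) (linSys v 6 mult) (excForms (v 6) 3) := by
  obtain ⟨Δ, h0, h⟩ := Pool.Agent.Results.MP_5bb273_ag.MaxRankFails.result_proof K
  refine ⟨Δ, h0, fun v hv => ?_⟩
  obtain ⟨h1, h2, h3⟩ := h v hv
  rw [← mult_eq] at h1 h2 h3
  exact ⟨fun h => h1 (hasFixed h), mapsTo v 6 mult 6, fun h => h2 (injOn h), fun h => h3 (surjOn h)⟩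

end MRF
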