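import Mathlib

/-!
Definitions for the statement: linear systems of plane curves with assigned multiplicities, and the
restriction to an exceptional curve.
-/

open MvPolynomial

namespace MRF

section

variable {K : Type*} [Field K] {r : ℕ}

/-- The homogeneous ideal of the point of `ℙ²` with homogeneous coordinates `p`:
the polynomials `F` with `F(T p) = 0` in `K[T]`. -/
noncomputable def pointIdeal (p : Fin 3 → K) : Ideal (MvPolynomial (Fin 3) K) :=
  RingHom.ker (aeval (R := K) fun i => Polynomial.C (p i) * Polynomial.X)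

/-- The linear system `|d H - ∑ m_i E_i|`: homogeneous polynomials of degree `d` lying in the
`m_i`-th power of the ideal of `p_i = v i` for every `i`. -/
def linSys (v : Fin r → Fin 3 → K) (d : ℕ) (m : Fin r → ℕ) : Set (MvPolynomial (Fin 3) K) :=
  {F | F.IsHomogeneous d ∧ ∀ i, F ∈ pointIdeal (v i) ^ m i}

/-- The Taylor expansion `F(p + T W)` at `p`, a polynomial in `T` over `K[W_0, W_1, W_2]`. -/
noncomputable def expand (p : Fin 3 → K) (F : MvPolynomial (Fin 3) K) :
    Polynomial (MvPolynomial (Fin 3) K) :=
  aeval (R := K) (fun i => Polynomial.C (C (p i)) + Polynomial.C (X i) * Polynomial.X) F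

/-- The forms of degree `n` on the tangent direction space `K³ / K p` at `p`. -/
def excForms (p : Fin 3 → K) (n : ℕ) : Set (MvPolynomial (Fin 3) K) :=
  {G | G.IsHomogeneous n ∧ ∀ (w : Fin 3 → K) (s : K), eval (fun i => w i + s * p i) G = eval w G}

/-- The restriction map `ρ : H⁰(O_X(D)) → H⁰(O_E(D|_E))` for `D = d H - ∑ m_i E_i` and `E = E_e`:
it sends a form `F` to the coefficient of `T^(m_e)` of `F(p_e + T W)`, a form of degree `m_e` on
`K³ / K p_e`. -/
noncomputable def rho (v : Fin r → Fin 3 → K) (m : Fin r → ℕ) (e : Fin r)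
    (F : MvPolynomial (Fin 3) K) : MvPolynomial (Fin 3) K :=
  (expand (v e) F).coeff (m e)

/-- `|D|` has a fixed curve: either (the proper transform of) an irreducible plane curve `G = 0`
contained in every member, or an exceptional curve `E_i` contained in every member. -/
def HasFixedComponent (v : Fin r → Fin 3 → K) (d : ℕ) (m : Fin r → ℕ) : Prop :=
  (∃ G : MvPolynomial (Fin 3) K, Irreducible G ∧ ∀ F ∈ linSys v d m, G ∣ F) ∨
    ∃ i, ∀ F ∈ linSys v d m, F ∈ pointIdeal (v i) ^ (m i + 1)

end

/-- The multiplicities `2, 2, 2, 2, 2, 2, 3`. -/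
def mult (i : Fin 7) : ℕ := if i = 6 then 3 else 2

end MRF
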